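import Pool.Agent.N343.LT.Base
import Pool.Agent.Y431.ZF.Iso

set_option autoImplicit false
set_option linter.all false

/-!
# Project LT, job TRI: from the complete tripartite graph minus a perfect matching to the complete
tripartite graph
-/

namespace Pool.Agent.N935.LT.TRI

open MvPolynomial Finset Pool.Agent.Helper929 Pool.Agent.H604R2.LEC Pool.Agent.Y819.ZF
  Pool.Agent.N343.LT

/-! ### re-indexing -/

theorem cc_re {R : Type} [CommRing R] {d n : ℕ} {E E' : Type} [Fintype E] [Fintype E']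
    (τ η : E → Fin n) (τ' η' : E' → Fin n) (ψ : E ≃ E') (h1 : ∀ e, τ' (ψ e) = τ e)
    (h2 : ∀ e, η' (ψ e) = η e) : cc R d τ' η' = cc R d τ η := by
  classical
  have hSM : SM R τ' η' = (SM R τ η).map (Pool.Agent.Y431.ZF.Phi (fun _ => (1 : R)) ψ) := by
    ext1 i j
    simp only [SM, Matrix.of_apply, Matrix.map_apply]
    rw [map_sum, ← Equiv.sum_comp ψ]
    refine Finset.sum_congr rfl fun e _ => ?_
    rw [map_sub, h1, h2]
    congr 1
    · split_ifs
      · rw [Pool.Agent.Y431.ZF.Phi_X, C_1, one_mul]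
      · rw [map_zero]
    · split_ifs
      · rw [Pool.Agent.Y431.ZF.Phi_X, C_1, one_mul]
      · rw [map_zero]
  unfold cc
  rw [hSM, ← pf_map, ← map_pow, Pool.Agent.Y431.ZF.coeff_Phi]
  simp

section AB
variable {R : Type} [CommRing R] {N : ℕ} {E : Type} [Fintype E] [DecidableEq E]

/-- the coefficient for the edges in `S` -/
noncomputable def A (R : Type) [CommRing R] (d : ℕ) (τ η : E → Fin N) (S : Finset E) : R :=
  cc R d (fun e : {e // e ∈ S} => τ e) (fun e : {e // e ∈ S} => η e)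

/-- the coefficient for the edges outside of `S` -/
noncomputable def B (R : Type) [CommRing R] (d : ℕ) (τ η : E → Fin N) (S : Finset E) : R :=
  cc R d (fun e : {e // e ∉ S} => τ e) (fun e : {e // e ∉ S} => η e)

theorem A_map (hALT : S_ALT) {d : ℕ} (hd : Odd d) (τ η : E → Fin N) (ψ : Equiv.Perm E)
    (σ : Equiv.Perm (Fin N)) (h1 : ∀ e, τ (ψ e) = σ (τ e)) (h2 : ∀ e, η (ψ e) = σ (η e))
    (S : Finset E) : A R d τ η (S.map ψ.toEmbedding) =
      (((Equiv.Perm.sign σ : ℤˣ) : ℤ) : R) * A R d τ η S := by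
  unfold A
  rw [← hALT R N d hd]
  refine cc_re _ _ _ _ (ψ.subtypeEquiv fun a => ?_) ?_ ?_
  · simp
  · intro e; exact h1 e
  · intro e; exact h2 e

theorem B_map (hALT : S_ALT) {d : ℕ} (hd : Odd d) (τ η : E → Fin N) (ψ : Equiv.Perm E)
    (σ : Equiv.Perm (Fin N)) (h1 : ∀ e, τ (ψ e) = σ (τ e)) (h2 : ∀ e, η (ψ e) = σ (η e))
    (S : Finset E) : B R d τ η (S.map ψ.toEmbedding) =
      (((Equiv.Perm.sign σ : ℤˣ) : ℤ) : R) * B R d τ η S := by
  unfold B
  rw [← hALT R N d hd]
  refine cc_re _ _ _ _ (ψ.subtypeEquiv fun a => ?_) ?_ ?_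
  · simp
  · intro e; exact h1 e
  · intro e; exact h2 e

theorem AB_map (hALT : S_ALT) {d : ℕ} (hd : Odd d) (τ η : E → Fin N) (ψ : Equiv.Perm E)
    (σ : Equiv.Perm (Fin N)) (h1 : ∀ e, τ (ψ e) = σ (τ e)) (h2 : ∀ e, η (ψ e) = σ (η e))
    (S : Finset E) : A R 1 τ η (S.map ψ.toEmbedding) * B R d τ η (S.map ψ.toEmbedding) =
      A R 1 τ η S * B R d τ η S := by
  rw [A_map hALT odd_one τ η ψ σ h1 h2, B_map hALT hd τ η ψ σ h1 h2]
  have : ((((Equiv.Perm.sign σ : ℤˣ) : ℤ) : R)) * (((Equiv.Perm.sign σ : ℤˣ) : ℤ) : R) = 1 := by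
    rcases Int.units_eq_one_or (Equiv.Perm.sign σ) with h | h <;> rw [h] <;> simp
  linear_combination (A R 1 τ η S * B R d τ η S) * this

end AB

/-! ### counting -/

theorem count {K : Type} [Field K] {H : Type} [Group H] [Fintype H] {Y : Type} [Fintype Y]
    [DecidableEq Y] (act : H → Y → Y) (hone : ∀ x, act 1 x = x)
    (hact : ∀ a b x, act (a * b) x = act a (act b x)) (term : Y → K)
    (hinv : ∀ h x, term (act h x) = term x) (x0 : Y) (h0 : term x0 ≠ 0)
    (htr : ∀ x, term x ≠ 0 → ∃ h, act h x0 = x) (hcard : (Fintype.card H : K) ≠ 0) :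
    ∑ x, term x ≠ 0 := by
  intro hsum
  have h1 : ∑ h : H, term (act h x0) = (Fintype.card H : K) * term x0 := by
    simp [hinv]
  have h2 : ∑ h : H, term (act h x0) =
      ((univ.filter fun h : H => act h x0 = x0).card : K) * ∑ x, term x := by
    rw [← Finset.sum_fiberwise univ (fun h : H => act h x0) (fun h => term (act h x0)),
      Finset.mul_sum]
    refine Finset.sum_congr rfl fun x _ => ?_
    have h3 : ∑ h ∈ univ.filter (fun h : H => act h x0 = x), term (act h x0) =
        ((univ.filter fun h : H => act h x0 = x).card : K) * term x := by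
      rw [← nsmul_eq_mul, ← Finset.sum_const]
      refine Finset.sum_congr rfl fun h hh => ?_
      rw [(Finset.mem_filter.mp hh).2]
    rw [h3]
    by_cases hx : term x = 0
    · rw [hx]; ring
    · obtain ⟨g, hg⟩ := htr x hx
      congr 2
      refine Finset.card_bij' (fun h _ => g⁻¹ * h) (fun h _ => g * h) ?_ ?_ ?_ ?_
      · intro h hh
        simp only [mem_filter, mem_univ, true_and] at hh ⊢
        rw [hact, hh, ← hg, ← hact, inv_mul_cancel, hone]
      · intro h hh
        simp only [mem_filter, mem_univ, true_and] at hh ⊢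
        rw [hact, hh, hg]
      · intro h _; simp
      · intro h _; simp
  rw [h1, hsum, mul_zero] at h2
  exact (mul_ne_zero hcard h0) h2

/-! ### perfect matchings -/

theorem partner {N : ℕ} {E : Type} [Fintype E] [DecidableEq E] (τ η : E → Fin N) (S : Finset E)
    (hreg : Reg 1 (fun e : {e // e ∈ S} => τ e) (fun e : {e // e ∈ S} => η e))
    (hlt : ∀ e, τ e < η e) (hinj : ∀ e e', τ e = τ e' → η e = η e' → e = e') :
    ∃ π : Fin N → Fin N, (∀ i, π (π i) = i) ∧
      (∀ i, ∃ e ∈ S, (τ e = i ∧ η e = π i) ∨ (η e = i ∧ τ e = π i)) ∧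
      ∀ e, e ∈ S ↔ π (τ e) = η e := by
  have hr : ∀ i, (univ.filter fun e : {e // e ∈ S} => τ e = i).card +
      (univ.filter fun e : {e // e ∈ S} => η e = i).card = 1 := fun i => hreg i
  have key : ∀ i, ∀ e ∈ S, ∀ e' ∈ S, (τ e = i ∨ η e = i) → (τ e' = i ∨ η e' = i) → e = e' := by
    intro i e he e' he' h h'
    have hr := hr i
    rcases h with h | h <;> rcases h' with h' | h'
    · have h1 : (univ.filter fun e : {e // e ∈ S} => τ e = i).card ≤ 1 := by omega
      exact congrArg Subtype.val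
        (Finset.card_le_one.mp h1 ⟨e, he⟩ (by simp [h]) ⟨e', he'⟩ (by simp [h']))
    · have p1 : 0 < (univ.filter fun e : {e // e ∈ S} => τ e = i).card :=
        Finset.card_pos.mpr ⟨⟨e, he⟩, by simp [h]⟩
      have p2 : 0 < (univ.filter fun e : {e // e ∈ S} => η e = i).card :=
        Finset.card_pos.mpr ⟨⟨e', he'⟩, by simp [h']⟩
      omega
    · have p1 : 0 < (univ.filter fun e : {e // e ∈ S} => τ e = i).card :=
        Finset.card_pos.mpr ⟨⟨e', he'⟩, by simp [h']⟩
      have p2 : 0 < (univ.filter fun e : {e // e ∈ S} => η e = i).card :=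
        Finset.card_pos.mpr ⟨⟨e, he⟩, by simp [h]⟩
      omega
    · have h1 : (univ.filter fun e : {e // e ∈ S} => η e = i).card ≤ 1 := by omega
      exact congrArg Subtype.val
        (Finset.card_le_one.mp h1 ⟨e, he⟩ (by simp [h]) ⟨e', he'⟩ (by simp [h']))
  have hex : ∀ i, ∃ j, ∃ e ∈ S, (τ e = i ∧ η e = j) ∨ (η e = i ∧ τ e = j) := by
    intro i
    have hr := hr i
    by_cases h0 : 0 < (univ.filter fun e : {e // e ∈ S} => τ e = i).card
    · obtain ⟨e, he⟩ := Finset.card_pos.mp h0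
      rw [mem_filter] at he
      exact ⟨η e, e, e.2, Or.inl ⟨he.2, rfl⟩⟩
    · have h1 : 0 < (univ.filter fun e : {e // e ∈ S} => η e = i).card := by omega
      obtain ⟨e, he⟩ := Finset.card_pos.mp h1
      rw [mem_filter] at he
      exact ⟨τ e, e, e.2, Or.inr ⟨he.2, rfl⟩⟩
  choose π hπ using hex
  have hcl : ∀ i, ∃ e ∈ S, (τ e = i ∧ η e = π i) ∨ (η e = i ∧ τ e = π i) := hπ
  refine ⟨π, ?_, hcl, ?_⟩
  · intro i
    obtain ⟨e, he, h⟩ := hπ i
    obtain ⟨e', he', h'⟩ := hπ (π i)
    have hee : e = e' := key (π i) e he e' he' (by tauto) (by tauto)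
    subst hee
    have := hlt e
    rcases h with ⟨h1, h2⟩ | ⟨h1, h2⟩ <;> rcases h' with ⟨h3, h4⟩ | ⟨h3, h4⟩
    · rw [h2, h3] at this; exact (lt_irrefl _ this).elim
    · rw [← h4, h1]
    · rw [← h4, h1]
    · rw [h2, h3] at this; exact (lt_irrefl _ this).elim
  · intro e
    obtain ⟨e', he', h'⟩ := hπ (τ e)
    constructor
    · intro he
      have hee : e = e' := key (τ e) e he e' he' (Or.inl rfl) (by tauto)
      subst hee
      have := hlt e
      rcases h' with ⟨h3, h4⟩ | ⟨h3, h4⟩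
      · exact h4.symm
      · rw [h3] at this; exact (lt_irrefl _ this).elim
    · intro h
      rcases h' with ⟨h3, h4⟩ | ⟨h3, h4⟩
      · rw [hinj e e' h3.symm (by rw [h4, h])]; exact he'
      · have h5 := hlt e
        have h6 := hlt e'
        rw [h3, h4, h] at h6
        exact (lt_asymm h5 h6).elim

/-- the set of the edges of an involution -/
theorem reg_of {N : ℕ} {E : Type} [Fintype E] [DecidableEq E] (τ η : E → Fin N)
    (S : Finset E) (hlt : ∀ e, τ e < η e) (hinj : ∀ e e', τ e = τ e' → η e = η e' → e = e')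
    (π : Fin N → Fin N) (hπ : ∀ i, π (π i) = i)
    (hex : ∀ i, i < π i → ∃ e, τ e = i ∧ η e = π i) (hne : ∀ i, π i ≠ i)
    (hS : ∀ e, e ∈ S ↔ π (τ e) = η e) :
    Reg 1 (fun e : {e // e ∈ S} => τ e) (fun e : {e // e ∈ S} => η e) := by
  intro i
  show (univ.filter fun e : {e // e ∈ S} => τ e = i).card +
      (univ.filter fun e : {e // e ∈ S} => η e = i).card = 1
  rcases lt_or_gt_of_ne (hne i) with h | h
  · -- `π i < i`
    have h1 : (univ.filter fun e : {e // e ∈ S} => τ e = i).card = 0 := by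
      rw [Finset.card_eq_zero, Finset.filter_eq_empty_iff]
      intro e _ he
      have h2 := (hS e).mp e.2
      have h3 := hlt e
      rw [← h2, he] at h3
      exact lt_asymm h h3
    have h2 : (univ.filter fun e : {e // e ∈ S} => η e = i).card = 1 := by
      obtain ⟨e, he1, he2⟩ := hex (π i) (by rw [hπ]; exact h)
      rw [hπ] at he2
      rw [Finset.card_eq_one]
      refine ⟨⟨e, (hS e).mpr (by rw [he1, hπ, he2])⟩, ?_⟩
      ext e'
      rw [mem_filter, mem_singleton]
      constructor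
      · rintro ⟨-, h3⟩
        have h4 := (hS e').mp e'.2
        apply Subtype.ext
        refine hinj _ _ ?_ (by rw [h3, he2])
        rw [he1, ← h3, ← h4, hπ]
      · rintro rfl
        exact ⟨mem_univ _, he2⟩
    rw [h1, h2]
  · have h1 : (univ.filter fun e : {e // e ∈ S} => η e = i).card = 0 := by
      rw [Finset.card_eq_zero, Finset.filter_eq_empty_iff]
      intro e _ he
      have h2 := (hS e).mp e.2
      have h3 := hlt e
      rw [he] at h2 h3
      have h4 : π i = τ e := by rw [← h2, hπ]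
      rw [h4] at h
      exact lt_asymm h h3
    have h2 : (univ.filter fun e : {e // e ∈ S} => τ e = i).card = 1 := by
      obtain ⟨e, he1, he2⟩ := hex i h
      rw [Finset.card_eq_one]
      refine ⟨⟨e, (hS e).mpr (by rw [he1, he2])⟩, ?_⟩
      ext e'
      rw [mem_filter, mem_singleton]
      constructor
      · rintro ⟨-, h3⟩
        have h4 := (hS e').mp e'.2
        apply Subtype.ext
        refine hinj _ _ (by rw [h3, he1]) ?_
        rw [he2, ← h4, h3]
      · rintro rfl
        exact ⟨mem_univ _, he1⟩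
    rw [h1, h2]

/-! ### the group -/

section grp
variable {n : ℕ}

theorem flt (u w : Fin 3 × Fin n) (h : u.1 < w.1) :
    (finProdFinEquiv u : Fin (3 * n)) < finProdFinEquiv w := by
  rw [Fin.lt_def, finProdFinEquiv_apply_val, finProdFinEquiv_apply_val]
  have h1 : (u.1 : ℕ) + 1 ≤ w.1 := h
  have h2 := Nat.mul_le_mul_left n h1
  rw [Nat.mul_add, Nat.mul_one] at h2
  have h3 := u.2.2
  omega

theorem flt' (u w : Fin 3 × Fin n) (h : (finProdFinEquiv u : Fin (3 * n)) < finProdFinEquiv w)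
    (hne : u.1 ≠ w.1) : u.1 < w.1 := by
  rcases lt_or_gt_of_ne hne with h1 | h1
  · exact h1
  · exact (lt_asymm h (flt w u h1)).elim

/-- permutations inside of the parts -/
def gg (h : Fin 3 → Equiv.Perm (Fin n)) : Equiv.Perm (Fin 3 × Fin n) :=
  Equiv.prodShear (Equiv.refl _) h

theorem gg_apply (h : Fin 3 → Equiv.Perm (Fin n)) (v : Fin 3 × Fin n) :
    gg h v = (v.1, h v.1 v.2) := rfl

theorem gg_one (v : Fin 3 × Fin n) : gg 1 v = v := rfl

theorem gg_mul (a b : Fin 3 → Equiv.Perm (Fin n)) (v : Fin 3 × Fin n) :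
    gg (a * b) v = gg a (gg b v) := rfl

theorem gg_surj (g : Equiv.Perm (Fin 3 × Fin n)) (hg : ∀ v, (g v).1 = v.1) :
    ∃ h, gg h = g := by
  have hg' : ∀ v, (g.symm v).1 = v.1 := fun v => by
    rw [← hg (g.symm v), Equiv.apply_symm_apply]
  refine ⟨fun i => ⟨fun j => (g (i, j)).2, fun j => (g.symm (i, j)).2, ?_, ?_⟩, ?_⟩
  · intro j
    have h1 : (i, (g (i, j)).2) = g (i, j) := Prod.ext (hg (i, j)).symm rfl
    show (g.symm (i, (g (i, j)).2)).2 = j
    rw [h1, Equiv.symm_apply_apply]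
  · intro j
    have h1 : (i, (g.symm (i, j)).2) = g.symm (i, j) := Prod.ext (hg' (i, j)).symm rfl
    show (g (i, (g.symm (i, j)).2)).2 = j
    rw [h1, Equiv.apply_symm_apply]
  · ext v : 1
    rw [gg_apply]
    exact Prod.ext (hg v).symm rfl

/-- the permutation of the numbers -/
def sg (h : Fin 3 → Equiv.Perm (Fin n)) : Equiv.Perm (Fin (3 * n)) :=
  (finProdFinEquiv.symm.trans (gg h)).trans finProdFinEquiv

theorem sg_apply (h : Fin 3 → Equiv.Perm (Fin n)) (i : Fin (3 * n)) :
    sg h i = finProdFinEquiv (gg h (finProdFinEquiv.symm i)) := rfl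

theorem sg_symm (h : Fin 3 → Equiv.Perm (Fin n)) (i : Fin (3 * n)) :
    finProdFinEquiv.symm (sg h i) = gg h (finProdFinEquiv.symm i) := by
  rw [sg_apply, Equiv.symm_apply_apply]

theorem sg_one (i : Fin (3 * n)) : sg 1 i = i := by
  rw [sg_apply, gg_one, Equiv.apply_symm_apply]

theorem sg_mul (a b : Fin 3 → Equiv.Perm (Fin n)) (i : Fin (3 * n)) :
    sg (a * b) i = sg a (sg b i) := by
  rw [sg_apply, sg_apply a, sg_symm, gg_mul]

/-- the complete tripartite graph, numbered -/
abbrev G3 (n : ℕ) : SimpleGraph (Fin (3 * n)) := (K3 n).comap finProdFinEquiv.symm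

theorem G3_lt {i j : Fin (3 * n)} (hij : i < j) (hadj : (G3 n).Adj i j)
    (h : Fin 3 → Equiv.Perm (Fin n)) : sg h i < sg h j := by
  rw [sg_apply, sg_apply]
  apply flt
  rw [gg_apply, gg_apply]
  apply flt' _ _ _ hadj
  rw [Equiv.apply_symm_apply, Equiv.apply_symm_apply]
  exact hij

theorem G3_adj {i j : Fin (3 * n)} (hadj : (G3 n).Adj i j)
    (h : Fin 3 → Equiv.Perm (Fin n)) : (G3 n).Adj (sg h i) (sg h j) := by
  show (finProdFinEquiv.symm (sg h i)).1 ≠ (finProdFinEquiv.symm (sg h j)).1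
  rw [sg_symm, sg_symm, gg_apply, gg_apply]
  exact hadj

/-- the map on edges -/
def em (h : Fin 3 → Equiv.Perm (Fin n)) (e : GE (G3 n)) : GE (G3 n) :=
  ⟨⟨(sg h e.1.1.1, sg h e.1.1.2), G3_lt e.1.2 e.2 h⟩, G3_adj e.2 h⟩

theorem ge_ext {e e' : GE (G3 n)} (h1 : gτ (G3 n) e = gτ (G3 n) e') (h2 : gη (G3 n) e = gη (G3 n) e') :
    e = e' :=
  Subtype.ext (Subtype.ext (Prod.ext h1 h2))

theorem em_τ (h : Fin 3 → Equiv.Perm (Fin n)) (e : GE (G3 n)) :
    gτ (G3 n) (em h e) = sg h (gτ (G3 n) e) := rfl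

theorem em_η (h : Fin 3 → Equiv.Perm (Fin n)) (e : GE (G3 n)) :
    gη (G3 n) (em h e) = sg h (gη (G3 n) e) := rfl

theorem em_one (e : GE (G3 n)) : em 1 e = e := by
  apply ge_ext
  · rw [em_τ, sg_one]
  · rw [em_η, sg_one]

theorem em_mul (a b : Fin 3 → Equiv.Perm (Fin n)) (e : GE (G3 n)) :
    em (a * b) e = em a (em b e) := by
  apply ge_ext
  · rw [em_τ, em_τ, em_τ, sg_mul]
  · rw [em_η, em_η, em_η, sg_mul]

/-- the permutation of the edges -/
def ep (h : Fin 3 → Equiv.Perm (Fin n)) : Equiv.Perm (GE (G3 n)) where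
  toFun := em h
  invFun := em h⁻¹
  left_inv := fun e => by rw [← em_mul, inv_mul_cancel, em_one]
  right_inv := fun e => by rw [← em_mul, mul_inv_cancel, em_one]

theorem ep_apply (h : Fin 3 → Equiv.Perm (Fin n)) (e : GE (G3 n)) : ep h e = em h e := rfl

theorem G3_hlt (e : GE (G3 n)) : gτ (G3 n) e < gη (G3 n) e := e.1.2

end grp

theorem A_ne (hONE : S_ONE) (p : ℕ) [Fact p.Prime] {N : ℕ} {E : Type} [Fintype E] [DecidableEq E]
    (τ η : E → Fin N) (S : Finset E) (h : ∀ e, τ e < η e) :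
    A (ZMod p) 1 τ η S ≠ 0 ↔
      Reg 1 (fun e : {e // e ∈ S} => τ e) (fun e : {e // e ∈ S} => η e) :=
  hONE p N {e // e ∈ S} (fun e => τ e) (fun e => η e) (fun e => (h e.1).ne)

theorem main (hEXP : S_EXP) (hONE : S_ONE) (hMAT : S_MAT) (hALT : S_ALT) (_hISO : S_ISO)
    (_hNUM : S_NUM) (hGME : S_GME) : S_TRI := by
  classical
  intro p hp n hn hpn π₀ hinv hpart hOK
  have hp1 : p - 1 = (p - 2) + 1 := by omega
  have hodd : Odd (p - 2) := ⟨n - 1, by omega⟩
  rw [hp1, hEXP (ZMod p) (p - 2) (3 * n) (GE (G3 n)) (gτ (G3 n)) (gη (G3 n))]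
  -- the edges of the matching
  set S0 : Finset (GE (G3 n)) := univ.filter (fun e =>
    π₀ (finProdFinEquiv.symm (gτ (G3 n) e)) = finProdFinEquiv.symm (gη (G3 n) e)) with hS0
  have hS0m : ∀ e, e ∈ S0 ↔
      π₀ (finProdFinEquiv.symm (gτ (G3 n) e)) = finProdFinEquiv.symm (gη (G3 n) e) := by
    intro e; rw [hS0]; simp
  have hone : ∀ x : Finset (GE (G3 n)), x.map (ep 1).toEmbedding = x := by
    intro x
    ext e
    rw [Finset.mem_map]
    constructor
    · rintro ⟨e', h1, h2⟩
      have : em 1 e' = e := h2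
      rw [em_one] at this
      rw [← this]; exact h1
    · intro h
      exact ⟨e, h, em_one e⟩
  have hmul : ∀ (a b : Fin 3 → Equiv.Perm (Fin n)) (x : Finset (GE (G3 n))),
      x.map (ep (a * b)).toEmbedding = (x.map (ep b).toEmbedding).map (ep a).toEmbedding := by
    intro a b x
    rw [Finset.map_map]
    congr 1
    ext1 e
    exact em_mul a b e
  refine count (fun h S => S.map (ep h).toEmbedding) hone hmul
    (fun S => A (ZMod p) 1 (gτ (G3 n)) (gη (G3 n)) S * B (ZMod p) (p - 2) (gτ (G3 n)) (gη (G3 n)) S)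
    ?_ S0 ?_ ?_ ?_
  · intro h S
    exact AB_map hALT hodd _ _ (ep h) (sg h) (fun e => em_τ h e) (fun e => em_η h e) S
  · refine mul_ne_zero ?_ ?_
    · refine (A_ne hONE p (gτ (G3 n)) (gη (G3 n)) S0 G3_hlt).mpr ?_
      · refine reg_of _ _ S0 G3_hlt (fun e e' => ge_ext)
          (fun i => finProdFinEquiv (π₀ (finProdFinEquiv.symm i))) ?_ ?_ ?_ ?_
        · intro i
          simp only [Equiv.symm_apply_apply, hinv, Equiv.apply_symm_apply]
        · intro i hi
          refine ⟨⟨⟨(i, finProdFinEquiv (π₀ (finProdFinEquiv.symm i))), hi⟩, ?_⟩, rfl, rfl⟩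
          show (finProdFinEquiv.symm i).1 ≠
            (finProdFinEquiv.symm (finProdFinEquiv (π₀ (finProdFinEquiv.symm i)))).1
          rw [Equiv.symm_apply_apply]
          exact (hpart _).symm
        · intro i hi
          apply hpart (finProdFinEquiv.symm i)
          have := congrArg finProdFinEquiv.symm hi
          rw [Equiv.symm_apply_apply] at this
          rw [this]
        · intro e
          rw [hS0m, ← Equiv.eq_symm_apply]
    · unfold B
      have h1 := (hGME p (p - 2) (Fin 3 × Fin n) (K3m n π₀) (3 * n) finProdFinEquiv).mpr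
        (hOK (3 * n) finProdFinEquiv)
      have hadj : ∀ x : Ed (3 * n), ((K3m n π₀).comap finProdFinEquiv.symm).Adj x.1.1 x.1.2 ↔
          (G3 n).Adj x.1.1 x.1.2 ∧
            π₀ (finProdFinEquiv.symm x.1.1) ≠ finProdFinEquiv.symm x.1.2 := by
        intro x
        show ((finProdFinEquiv.symm x.1.1).1 ≠ (finProdFinEquiv.symm x.1.2).1 ∧
          finProdFinEquiv.symm x.1.2 ≠ π₀ (finProdFinEquiv.symm x.1.1) ∧
          finProdFinEquiv.symm x.1.1 ≠ π₀ (finProdFinEquiv.symm x.1.2)) ↔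
          ((finProdFinEquiv.symm x.1.1).1 ≠ (finProdFinEquiv.symm x.1.2).1) ∧ _
        constructor
        · rintro ⟨h1, h2, h3⟩
          exact ⟨h1, h2.symm⟩
        · rintro ⟨h1, h2⟩
          refine ⟨h1, h2.symm, fun h => h2 ?_⟩
          rw [h, hinv]
      refine (cc_re (gτ ((K3m n π₀).comap finProdFinEquiv.symm))
        (gη ((K3m n π₀).comap finProdFinEquiv.symm)) _ _
        { toFun := fun x => ⟨⟨x.1, ((hadj x.1).mp x.2).1⟩, fun h => ((hadj x.1).mp x.2).2
            ((hS0m _).mp h)⟩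
          invFun := fun x => ⟨x.1.1, (hadj _).mpr ⟨x.1.2, fun h => x.2 ((hS0m _).mpr h)⟩⟩
          left_inv := fun x => rfl
          right_inv := fun x => rfl } ?_ ?_).trans_ne h1
      · intro e; rfl
      · intro e; rfl
  · intro S hS
    have hA : A (ZMod p) 1 (gτ (G3 n)) (gη (G3 n)) S ≠ 0 := fun h => hS (by rw [h, zero_mul])
    have hA := (A_ne hONE p (gτ (G3 n)) (gη (G3 n)) S G3_hlt).mp hA
    obtain ⟨π, hπ, hπe, hπS⟩ := partner _ _ S hA G3_hlt (fun e e' => ge_ext)
    obtain ⟨g, hg1, hg2⟩ := hMAT n (fun v => finProdFinEquiv.symm (π (finProdFinEquiv v))) π₀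
      (by
        intro v
        show finProdFinEquiv.symm (π (finProdFinEquiv (finProdFinEquiv.symm
          (π (finProdFinEquiv v))))) = v
        rw [Equiv.apply_symm_apply, hπ, Equiv.symm_apply_apply]) hinv
      (by
        intro v hv
        obtain ⟨e, he, h⟩ := hπe (finProdFinEquiv v)
        have h3 : (finProdFinEquiv.symm (gτ (G3 n) e)).1 ≠
          (finProdFinEquiv.symm (gη (G3 n) e)).1 := e.2
        rcases h with ⟨h1, h2⟩ | ⟨h1, h2⟩
        · apply h3
          rw [h1, h2, Equiv.symm_apply_apply]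
          exact hv.symm
        · apply h3
          rw [h1, h2, Equiv.symm_apply_apply]
          exact hv) hpart
    obtain ⟨h, rfl⟩ := gg_surj g hg1
    refine ⟨h, ?_⟩
    have hiff : ∀ e, e ∈ S0 ↔ ep h e ∈ S := by
      intro e
      rw [hS0m, hπS, ep_apply, em_τ, em_η, ← (gg h).injective.eq_iff, hg2]
      constructor
      · intro h1
        rw [sg_apply h (gη (G3 n) e), ← h1, Equiv.apply_symm_apply]
        rfl
      · intro h1
        rw [sg_apply h (gη (G3 n) e)] at h1
        rw [Equiv.symm_apply_eq, ← h1]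
        rfl
    ext e
    rw [Finset.mem_map]
    constructor
    · rintro ⟨e', h1, rfl⟩
      exact (hiff e').mp h1
    · intro he
      refine ⟨(ep h).symm e, (hiff _).mpr ?_, ?_⟩
      · rw [Equiv.apply_symm_apply]; exact he
      · exact Equiv.apply_symm_apply _ _
  · have hc : Fintype.card (Fin 3 → Equiv.Perm (Fin n)) = (n.factorial) ^ 3 := by
      rw [Fintype.card_fun, Fintype.card_perm, Fintype.card_fin, Fintype.card_fin]
    rw [hc, Nat.cast_pow]
    apply pow_ne_zero
    rw [Ne, ZMod.natCast_eq_zero_iff, hp.out.dvd_factorial]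
    omega

end Pool.Agent.N935.LT.TRI
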